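import Mathlib

set_option autoImplicit false

namespace Pool.Agent.U730.TL

open AddMonoidAlgebra

/-- the vector space of the weights -/
abbrev V := Fin 4 → ZMod 2

variable (K : Type*) [Field K] [CharP K 2]

/-- the embedding of the prime field -/
def ph : ZMod 2 →+* K := ZMod.castHom (dvd_refl 2) K

variable {K}

theorem two0 : (2 : K) = 0 := by exact_mod_cast CharP.cast_eq_zero K 2

/-- the derivation `u_j ∂/∂u_j` of the group algebra of `V` -/
noncomputable def D (j : Fin 4) : AddMonoidAlgebra K V →ₗ[K] AddMonoidAlgebra K V where
  toFun f := ofCoeff (Finsupp.equivFunOnFinite.symm (fun α => ph K (α j) * f.coeff α))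
  map_add' f g := by
    ext α
    simp [mul_add]
  map_smul' a f := by
    ext α
    simp
    ring

theorem D_coeff (j : Fin 4) (f : AddMonoidAlgebra K V) (α : V) :
    (D j f).coeff α = ph K (α j) * f.coeff α := by
  simp [D]

theorem D_single (j : Fin 4) (α : V) (a : K) :
    D j (single α a : AddMonoidAlgebra K V) = single α (ph K (α j) * a) := by
  ext β
  rw [D_coeff]
  by_cases h : α = β
  · subst h
    simp
  · simp [h]

theorem D_mul (j : Fin 4) (f g : AddMonoidAlgebra K V) : D j (f * g) = D j f * g + f * D j g := by
  induction f using AddMonoidAlgebra.induction_linear with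
  | zero => simp
  | add f1 f2 h1 h2 => rw [add_mul, map_add, h1, h2, map_add]; ring
  | single α a =>
    induction g using AddMonoidAlgebra.induction_linear with
    | zero => simp
    | add f1 f2 h1 h2 => rw [mul_add, map_add, h1, h2, map_add]; ring
    | single β b =>
      rw [D_single, D_single, single_mul_single, single_mul_single, single_mul_single, D_single,
        ← single_add]
      congr 1
      rw [Pi.add_apply, map_add]
      ring

theorem D_comm (i j : Fin 4) (f : AddMonoidAlgebra K V) : D i (D j f) = D j (D i f) := by
  ext α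
  rw [D_coeff, D_coeff, D_coeff, D_coeff]
  ring

theorem ph_sq (a : ZMod 2) : ph K a * ph K a = ph K a := by
  rw [← map_mul]
  congr 1
  revert a
  decide

theorem D_sq (j : Fin 4) (f : AddMonoidAlgebra K V) : D j (D j f) = D j f := by
  ext α
  rw [D_coeff, D_coeff, ← mul_assoc, ph_sq]

/-- the Poisson bracket -/
noncomputable def P (f g : AddMonoidAlgebra K V) : AddMonoidAlgebra K V :=
  D 0 f * D 1 g - D 1 f * D 0 g + D 2 f * D 3 g - D 3 f * D 2 g

/-- the alternating form -/
def B (α β : V) : ZMod 2 := α 0 * β 1 + α 1 * β 0 + α 2 * β 3 + α 3 * β 2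

theorem neg_eq (a : K) : -a = a := by
  have : a + a = 0 := by
    have h : a + a = 2 * a := by ring
    rw [h, two0, zero_mul]
  exact (eq_neg_of_add_eq_zero_left this).symm

theorem P_single (α β : V) (a b : K) :
    P (single α a) (single β b : AddMonoidAlgebra K V) = single (α + β) (ph K (B α β) * (a * b)) := by
  rw [P]
  simp only [D_single, single_mul_single, sub_eq_add_neg, ← single_neg, neg_eq, ← single_add]
  congr 1
  simp only [B, map_add, map_mul]
  ring

theorem P_add_left (f g h : AddMonoidAlgebra K V) : P (f + g) h = P f h + P g h := by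
  simp only [P, map_add]; ring

theorem P_add_right (f g h : AddMonoidAlgebra K V) : P f (g + h) = P f g + P f h := by
  simp only [P, map_add]; ring

theorem P_smul_right (a : K) (f g : AddMonoidAlgebra K V) : P f (a • g) = a • P f g := by
  simp only [P, map_smul, mul_smul_comm, smul_sub, smul_add]

theorem P_self (f : AddMonoidAlgebra K V) : P f f = 0 := by
  simp only [P]; ring

theorem P_jac (f g h : AddMonoidAlgebra K V) : P f (P g h) = P (P f g) h + P g (P f h) := by
  simp only [P, map_add, map_sub, D_mul]
  rw [D_comm 1 0 f, D_comm 1 0 g, D_comm 1 0 h, D_comm 2 0 f, D_comm 2 0 g, D_comm 2 0 h,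
    D_comm 3 0 f, D_comm 3 0 g, D_comm 3 0 h, D_comm 2 1 f, D_comm 2 1 g, D_comm 2 1 h,
    D_comm 3 1 f, D_comm 3 1 g, D_comm 3 1 h, D_comm 3 2 f, D_comm 3 2 g, D_comm 3 2 h]
  ring

theorem V_add_self (α : V) : α + α = 0 := by
  funext i
  rw [Pi.add_apply, Pi.zero_apply]
  generalize α i = a
  revert a
  decide

theorem P_zero (f g : AddMonoidAlgebra K V) : (P f g).coeff 0 = 0 := by
  induction f using AddMonoidAlgebra.induction_linear with
  | zero => simp [P]
  | add f1 f2 h1 h2 => rw [P_add_left]; simp [h1, h2]
  | single α a =>
    induction g using AddMonoidAlgebra.induction_linear with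
    | zero => simp [P]
    | add f1 f2 h1 h2 => rw [P_add_right]; simp [h1, h2]
    | single β b =>
      rw [P_single]
      by_cases h : α + β = 0
      · have hβ : β = α := by
          have := V_add_self α
          exact (add_left_cancel (h.trans this.symm))
        subst hβ
        have : B β β = 0 := by
          simp only [B]
          have : ∀ a b c d : ZMod 2, a * b + b * a + c * d + d * c = 0 := by decide
          exact this _ _ _ _
        rw [this, (ph K).map_zero, zero_mul, single_zero]
        rfl
      · simp [h]

end Pool.Agent.U730.TL
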