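import Mathlib

set_option autoImplicit false

namespace Pool.Agent.U730.TL.Comb

/-- not exactly two of three -/
def ok (a b c : Bool) : Bool := !(a && b && !c) && !(a && !b && c) && !(!a && b && c)

/-- A set of nonzero vectors of `𝔽_2 ^ 4` (in binary code) which is closed under sums of
non-orthogonal pairs, and in which every vector has a non-orthogonal one, does not have seven
elements. -/
theorem comb :
    ∀ b1 b2 b3 : Bool, (ok b1 b2 b3) = true →
    ∀ b4 b5 b6 : Bool, (ok b3 b5 b6) = true →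
    ∀ b7 : Bool, (ok b1 b6 b7 && ok b2 b5 b7) = true →
    ∀ b8 b9 b10 : Bool, (ok b3 b9 b10) = true →
    ∀ b11 : Bool, (ok b1 b10 b11 && ok b2 b9 b11) = true →
    ∀ b12 : Bool, (ok b4 b8 b12 && ok b5 b9 b12 && ok b6 b10 b12 && ok b7 b11 b12) = true →
    ∀ b13 : Bool, (ok b4 b9 b13 && ok b5 b8 b13) = true →
    ∀ b14 : Bool, (ok b3 b13 b14 && ok b4 b10 b14 && ok b6 b8 b14) = true →
    ∀ b15 : Bool, (ok b1 b14 b15 && ok b2 b13 b15 && ok b4 b11 b15 && ok b7 b8 b15) = true →
    ((!b1 || b2 || b3 || b6 || b7 || b10 || b11 || b14 || b15) &&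
    (!b2 || b1 || b3 || b5 || b7 || b9 || b11 || b13 || b15) &&
    (!b3 || b1 || b2 || b5 || b6 || b9 || b10 || b13 || b14) &&
    (!b4 || b8 || b9 || b10 || b11 || b12 || b13 || b14 || b15) &&
    (!b5 || b2 || b3 || b6 || b7 || b8 || b9 || b12 || b13) &&
    (!b6 || b1 || b3 || b5 || b7 || b8 || b10 || b12 || b14) &&
    (!b7 || b1 || b2 || b5 || b6 || b8 || b11 || b12 || b15) &&
    (!b8 || b4 || b5 || b6 || b7 || b12 || b13 || b14 || b15) &&
    (!b9 || b2 || b3 || b4 || b5 || b10 || b11 || b12 || b13) &&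
    (!b10 || b1 || b3 || b4 || b6 || b9 || b11 || b12 || b14) &&
    (!b11 || b1 || b2 || b4 || b7 || b9 || b10 || b12 || b15) &&
    (!b12 || b4 || b5 || b6 || b7 || b8 || b9 || b10 || b11) &&
    (!b13 || b2 || b3 || b4 || b5 || b8 || b9 || b14 || b15) &&
    (!b14 || b1 || b3 || b4 || b6 || b8 || b10 || b13 || b15) &&
    (!b15 || b1 || b2 || b4 || b7 || b8 || b11 || b13 || b14)) = true →
    b1.toNat + b2.toNat + b3.toNat + b4.toNat + b5.toNat + b6.toNat + b7.toNat + b8.toNat +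
    b9.toNat + b10.toNat + b11.toNat + b12.toNat + b13.toNat + b14.toNat + b15.toNat ≠ 7 := by
  decide +kernel

end Pool.Agent.U730.TL.Comb
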