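import Pool.Agent.U730.TL.T

set_option autoImplicit false

namespace Pool.Agent.U730.TL

open AddMonoidAlgebra

variable {K : Type*} [Field K] [CharP K 2]

omit [CharP K 2] in
/-- simultaneous eigenvectors span -/
theorem span_eig [IsAlgClosed K] {L : Type*} [AddCommGroup L] [Module K L] [FiniteDimensional K L]
    (T : Submodule K (Module.End K L))
    (hc : ∀ f ∈ T, ∀ g ∈ T, f * g = g * f) (hs : ∀ f ∈ T, f.IsSemisimple) :
    Submodule.span K {v : L | ∀ f ∈ T, ∃ μ : K, f v = μ • v} = ⊤ := by
  have h := Module.End.iSup_iInf_maxGenEigenspace_eq_top_of_iSup_maxGenEigenspace_eq_top_of_commute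
    (fun t : T => (t : Module.End K L)) (fun s t _ => hc s.1 s.2 t.1 t.2)
    (fun t => Module.End.iSup_maxGenEigenspace_eq_top t.1)
  rw [eq_top_iff, ← h]
  refine iSup_le fun χ => ?_
  intro v hv
  apply Submodule.subset_span
  intro f hf
  rw [Submodule.mem_iInf] at hv
  have h1 := hv ⟨f, hf⟩
  rw [(hs f hf).isFinitelySemisimple.maxGenEigenspace_eq_eigenspace,
    Module.End.mem_eigenspace_iff] at h1
  exact ⟨_, h1⟩

theorem torus_bound [IsAlgClosed K] (T : Submodule K (Module.End K (LK K))) (hG : T ≤ G K)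
    (hc : ∀ f ∈ T, ∀ g ∈ T, f * g = g * f) (hs : ∀ f ∈ T, f.IsSemisimple) :
    Module.finrank K T ≤ 4 := by
  have hspan := span_eig T hc hs
  have h1 : ⊤ ≤ Submodule.span K (de '' {v : LK K | ∀ f ∈ T, ∃ μ : K, f v = μ • v}) := by
    rw [← Submodule.map_span, hspan, Submodule.map_top, de_surj]
  let b := Module.Basis.ofSpan h1
  have hb : Set.range b ⊆ de '' {v : LK K | ∀ f ∈ T, ∃ μ : K, f v = μ • v} :=
    Module.Basis.ofSpan_subset h1
  have : Fintype ((linearIndepOn_empty K id).extend (Set.empty_subset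
      (de '' {v : LK K | ∀ f ∈ T, ∃ μ : K, f v = μ • v}))) :=
    FiniteDimensional.fintypeBasisIndex b
  have hcard := Module.finrank_eq_card_basis b
  rw [Module.finrank_fin_fun] at hcard
  let e := (Fintype.equivFinOfCardEq hcard.symm)
  let b' := b.reindex e
  have hb' : ∀ i : Fin 4, ∃ v : LK K, (∀ f ∈ T, ∃ μ : K, f v = μ • v) ∧ de v = b' i := by
    intro i
    obtain ⟨v, hv, hv2⟩ := hb ⟨e.symm i, rfl⟩
    exact ⟨v, hv, by rw [hv2, Module.Basis.reindex_apply]⟩
  choose v hv hv2 using hb'
  let Ψ : T →ₗ[K] (Fin 4 → K) :=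
    { toFun := fun t i => b'.coord i (de (t.1 (v i)))
      map_add' := fun s t => by
        funext i
        simp only [Submodule.coe_add, LinearMap.add_apply, map_add, Pi.add_apply]
      map_smul' := fun a t => by
        funext i
        simp only [Submodule.coe_smul, LinearMap.smul_apply, map_smul, Pi.smul_apply,
          RingHom.id_apply] }
  have hinj : Function.Injective Ψ := by
    rw [← LinearMap.ker_eq_bot, LinearMap.ker_eq_bot']
    intro t ht
    apply Subtype.ext
    refine G_zero t.1 (hG t.2) v ?_ ?_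
    · have : (fun i => de (v i)) = b' := funext hv2
      rw [this]
      exact b'.linearIndependent
    · intro i
      obtain ⟨μ, hμ⟩ := hv i t.1 t.2
      have h2 := congrFun ht i
      have h3 : Ψ t i = b'.coord i (de (t.1 (v i))) := rfl
      rw [h3, hμ, map_smul, hv2, map_smul, Module.Basis.coord_apply, Module.Basis.repr_self,
        Finsupp.single_eq_same, smul_eq_mul, mul_one, Pi.zero_apply] at h2
      rw [hμ, h2, zero_smul]
  have := LinearMap.finrank_le_finrank_of_injective hinj
  rwa [Module.finrank_fin_fun] at this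

/-- the toral elements -/
noncomputable def tt (j : Fin 4) : Module.End K (LK K) where
  toFun x := fun k => ph K (k.1 j) * x k
  map_add' x y := by
    funext k
    exact mul_add _ _ _
  map_smul' a x := by
    funext k
    show ph K (k.1 j) * (a * x k) = a * (ph K (k.1 j) * x k)
    ring

theorem tt_eb (j : Fin 4) (k : I) : tt j (eb k : LK K) = if k.1 j = 0 then 0 else eb k := by
  rcases z2 (k.1 j) with h | h
  · rw [if_pos h]
    funext l
    show ph K (l.1 j) * (eb k : LK K) l = (0 : K)
    rw [eb_apply]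
    split_ifs with hkl
    · rw [← hkl, h, map_zero, zero_mul]
    · rw [mul_zero]
  · rw [if_neg (by rw [h]; exact one_ne_zero)]
    funext l
    show ph K (l.1 j) * (eb k : LK K) l = (eb k : LK K) l
    rw [eb_apply]
    split_ifs with hkl
    · rw [← hkl, h, map_one, one_mul]
    · rw [mul_zero]

theorem tt_sq (j : Fin 4) : tt j * tt j = (tt j : Module.End K (LK K)) := by
  ext x : 1
  funext k
  show ph K (k.1 j) * (ph K (k.1 j) * x k) = ph K (k.1 j) * x k
  rw [← mul_assoc, ph_sq]

theorem hne (j : Fin 4) : (Pi.single j 1 : V) ≠ 0 := by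
  intro h
  have := congrFun h j
  rw [Pi.single_eq_same] at this
  exact one_ne_zero this

theorem ad_sq_eq (j j' : Fin 4) (h : ∀ β : V, B (Pi.single j' 1) β = β j) :
    (LieAlgebra.ad K (LK K) (eb ⟨Pi.single j' 1, hne j'⟩)) *
      (LieAlgebra.ad K (LK K) (eb ⟨Pi.single j' 1, hne j'⟩)) = tt j := by
  ext x : 1
  funext k
  rw [Module.End.mul_apply, LieAlgebra.ad_apply, LieAlgebra.ad_apply, lie_lie_eb]
  show ph K (B (Pi.single j' 1) k.1) * x k = ph K (k.1 j) * x k
  rw [h]

theorem exists_sq (j : Fin 4) : ∃ x : LK K, LieAlgebra.ad K (LK K) x * LieAlgebra.ad K (LK K) x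
    = tt j := by
  fin_cases j
  · exact ⟨_, ad_sq_eq 0 1 (fun β => by simp [B])⟩
  · exact ⟨_, ad_sq_eq 1 0 (fun β => by simp [B])⟩
  · exact ⟨_, ad_sq_eq 2 3 (fun β => by simp [B])⟩
  · exact ⟨_, ad_sq_eq 3 2 (fun β => by simp [B])⟩

theorem tt_linInd : LinearIndependent K (tt : Fin 4 → Module.End K (LK K)) := by
  rw [Fintype.linearIndependent_iff]
  intro a ha i
  have h1 := congrFun (LinearMap.congr_fun ha (eb ⟨Pi.single i 1, hne i⟩)) ⟨Pi.single i 1, hne i⟩
  rw [LinearMap.sum_apply] at h1
  have h2 : ∀ j : Fin 4, (a j • (tt j : Module.End K (LK K)))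
      (eb ⟨Pi.single i 1, hne i⟩) = if j = i then a j • eb ⟨Pi.single i 1, hne i⟩ else 0 := by
    intro j
    rw [LinearMap.smul_apply, tt_eb]
    by_cases hj : j = i
    · subst hj
      rw [if_pos rfl, if_neg]
      show ¬ (Pi.single j 1 : V) j = 0
      rw [Pi.single_eq_same]
      exact one_ne_zero
    · rw [if_neg hj, if_pos, smul_zero]
      exact Pi.single_eq_of_ne hj _
  rw [Finset.sum_congr rfl (fun j _ => h2 j)] at h1
  simp only [Finset.sum_ite_eq', Finset.mem_univ, if_true] at h1
  have h3 : a i * (eb ⟨Pi.single i 1, hne i⟩ : LK K) ⟨Pi.single i 1, hne i⟩ = 0 := h1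
  rwa [eb_apply, if_pos rfl, mul_one] at h3

/-- the elements of the span are diagonal -/
theorem diag_of_span (f : Module.End K (LK K)) (hf : f ∈ Submodule.span K (Set.range
    (tt : Fin 4 → Module.End K (LK K)))) (k : I) : ∃ μ : K, f (eb k) = μ • eb k := by
  induction hf using Submodule.span_induction with
  | mem x hx =>
    obtain ⟨j, rfl⟩ := hx
    rw [tt_eb]
    split_ifs
    · exact ⟨0, by simp⟩
    · exact ⟨1, by simp⟩
  | zero => exact ⟨0, by simp⟩
  | add x y _ _ hx hy =>
    obtain ⟨μ, hμ⟩ := hx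
    obtain ⟨ν, hν⟩ := hy
    exact ⟨μ + ν, by rw [LinearMap.add_apply, hμ, hν, add_smul]⟩
  | smul a x _ hx =>
    obtain ⟨μ, hμ⟩ := hx
    exact ⟨a * μ, by rw [LinearMap.smul_apply, hμ, smul_smul]⟩

omit [CharP K 2] in
theorem diag_comm (f g : Module.End K (LK K)) (hf : ∀ k, ∃ μ : K, f (eb k) = μ • eb k)
    (hg : ∀ k, ∃ μ : K, g (eb k) = μ • eb k) : f * g = g * f := by
  apply eb.ext
  intro α
  obtain ⟨μ, hμ⟩ := hf α
  obtain ⟨ν, hν⟩ := hg α
  rw [Module.End.mul_apply, Module.End.mul_apply, hμ, hν, map_smul, map_smul, hμ, hν, smul_smul,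
    smul_smul, mul_comm]

omit [CharP K 2] in
theorem diag_semisimple (f : Module.End K (LK K)) (hf : ∀ k, ∃ μ : K, f (eb k) = μ • eb k) :
    f.IsSemisimple := by
  classical
  choose μ hμ using hf
  let s : Finset K := Finset.univ.image μ
  apply Module.End.isSemisimple_of_squarefree_aeval_eq_zero
    (p := ∏ a ∈ s, (Polynomial.X - Polynomial.C a))
  · apply Polynomial.Separable.squarefree
    rw [Polynomial.separable_prod_X_sub_C_iff']
    intro x _ y _ hxy
    exact hxy
  · apply eb.ext
    intro α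
    rw [LinearMap.zero_apply]
    have hα : μ α ∈ s := Finset.mem_image_of_mem _ (Finset.mem_univ _)
    rw [← Finset.prod_erase_mul s _ hα, map_mul, Module.End.mul_apply]
    have : (Polynomial.aeval f (Polynomial.X - Polynomial.C (μ α))) (eb α) = 0 := by
      simp [hμ]
    rw [this, map_zero]

/-- coordinates of a bracket with a weight vector -/
theorem lie_eb (x : LK K) (j k l : I) (h : l.1 + j.1 = k.1) :
    ⁅x, (eb j : LK K)⁆ k = ph K (B l.1 j.1) * x l := by
  let f : LK K →ₗ[K] K :=
    { toFun := fun x => ⁅x, (eb j : LK K)⁆ k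
      map_add' := fun x y => by rw [add_lie]; rfl
      map_smul' := fun a x => by rw [smul_lie]; rfl }
  let g : LK K →ₗ[K] K :=
    { toFun := fun x => ph K (B l.1 j.1) * x l
      map_add' := fun x y => mul_add _ _ _
      map_smul' := fun a x => by
        show ph K (B l.1 j.1) * (a * x l) = a * (ph K (B l.1 j.1) * x l)
        ring }
  have hfg : f = g := by
    apply eb.ext
    intro m
    show ⁅(eb m : LK K), (eb j : LK K)⁆ k = ph K (B l.1 j.1) * (eb m : LK K) l
    by_cases hmj : m.1 + j.1 = 0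
    · have hm : m = j := Subtype.ext (add_left_cancel
        (a := j.1) (by rw [add_comm, hmj, V_add_self]))
      subst hm
      rw [lie_self, eb_apply]
      have : m ≠ l := by
        rintro rfl
        exact k.2 (h.symm.trans (V_add_self m.1))
      rw [if_neg this, mul_zero]
      rfl
    · rw [lie_eb_eb m j ⟨m.1 + j.1, hmj⟩ rfl]
      show ph K (B m.1 j.1) * (eb ⟨m.1 + j.1, hmj⟩ : LK K) k = _
      rw [eb_apply, eb_apply]
      by_cases hml : m = l
      · subst hml
        rw [if_pos rfl, if_pos (Subtype.ext h)]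
      · rw [if_neg hml, if_neg, mul_zero, mul_zero]
        intro h'
        apply hml
        apply Subtype.ext
        have h2 : m.1 + j.1 = l.1 + j.1 := by rw [h]; exact congrArg Subtype.val h'
        exact add_right_cancel h2
  exact LinearMap.congr_fun hfg x

theorem disj (x : LK K) (hx : LieAlgebra.ad K (LK K) x ∈ Submodule.span K (Set.range
    (tt : Fin 4 → Module.End K (LK K)))) : LieAlgebra.ad K (LK K) x = 0 := by
  have : x = 0 := by
    funext l
    obtain ⟨α, hα⟩ := nondeg l.1 l.2
    have hn := ne_zero_of_B hα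
    obtain ⟨μ, hμ⟩ := diag_of_span _ hx ⟨α, hn.1⟩
    have hk : l.1 + α ≠ 0 := by rw [add_comm]; exact hn.2.2
    have h1 := lie_eb x ⟨α, hn.1⟩ ⟨l.1 + α, hk⟩ l rfl
    rw [LieAlgebra.ad_apply] at hμ
    rw [hμ] at h1
    have h2 : μ * (eb ⟨α, hn.1⟩ : LK K) ⟨l.1 + α, hk⟩ = ph K (B l.1 α) * x l := h1
    rw [eb_apply, if_neg, mul_zero, B_comm, hα, map_one, one_mul] at h2
    · exact h2.symm
    · intro h'
      have h3 : α = l.1 + α := congrArg Subtype.val h'
      exact l.2 (by simpa using h3.symm)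
  rw [this, map_zero]

end Pool.Agent.U730.TL
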