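import Pool.Agent.U730.TL.E
import Pool.Agent.U730.TL.C

set_option autoImplicit false

namespace Pool.Agent.U730.TL

open Comb

/-- the nonzero vector with binary code `i + 1` -/
def w (i : Fin 15) : I :=
  ⟨fun j => if (i.1 + 1).testBit j.1 then 1 else 0, by revert i; decide +kernel⟩

theorem w_inj : Function.Injective w := by
  intro a b h
  revert a b
  decide +kernel

theorem w_bij : Function.Bijective w := by
  rw [Fintype.bijective_iff_injective_and_card]
  exact ⟨w_inj, by decide +kernel⟩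

open Classical in
theorem seven (s : Finset I)
    (hcl : ∀ i ∈ s, ∀ j ∈ s, ∀ k : I, B i.1 j.1 = 1 → i.1 + j.1 = k.1 → k ∈ s)
    (hnb : ∀ g ∈ s, ∃ a ∈ s, B a.1 g.1 = 1) : s.card ≠ 7 := by
  let b : Fin 15 → Bool := fun i => decide (w i ∈ s)
  have hok : ∀ i j k : Fin 15, B (w i).1 (w j).1 = 1 → (w i).1 + (w j).1 = (w k).1 →
      ok (b i) (b j) (b k) = true := by
    intro i j k h1 h2
    have e1 : B (w j).1 (w k).1 = 1 := by rw [← h2, add_comm, B_add_self, B_comm, h1]
    have e2 : (w j).1 + (w k).1 = (w i).1 := by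
      rw [← h2, add_comm (w i).1, ← add_assoc, V_add_self, zero_add]
    have e3 : B (w i).1 (w k).1 = 1 := by rw [← h2, B_add_self, h1]
    have e4 : (w i).1 + (w k).1 = (w j).1 := by rw [← h2, ← add_assoc, V_add_self, zero_add]
    by_cases hi : w i ∈ s <;> by_cases hj : w j ∈ s <;> by_cases hk : w k ∈ s
    · simp [ok, b, hi, hj, hk]
    · exact absurd (hcl _ hi _ hj _ h1 h2) hk
    · exact absurd (hcl _ hi _ hk _ e3 e4) hj
    · simp [ok, b, hi, hj, hk]
    · exact absurd (hcl _ hj _ hk _ e1 e2) hi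
    · simp [ok, b, hi, hj, hk]
    · simp [ok, b, hi, hj, hk]
    · simp [ok, b, hi, hj, hk]
  have hn : ∀ g : Fin 15, b g = true → ∃ a : Fin 15, b a = true ∧ B (w a).1 (w g).1 = 1 := by
    intro g hg
    obtain ⟨a, ha, h⟩ := hnb (w g) (by simpa [b] using hg)
    obtain ⟨a', rfl⟩ := w_bij.2 a
    exact ⟨a', by simpa [b] using ha, h⟩
  have hcard : s.card = ∑ i : Fin 15, (b i).toNat := by
    have h1 : s.card = ∑ v : I, if v ∈ s then 1 else 0 := by simp
    rw [h1, ← w_bij.sum_comp]
    refine Finset.sum_congr rfl (fun i _ => ?_)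
    by_cases hi : w i ∈ s <;> simp [b, hi]
  have key := comb (b 0) (b 1) (b 2) (hok 0 1 2 (by decide) (by decide))
    (b 3) (b 4) (b 5) (hok 2 4 5 (by decide) (by decide))
    (b 6) (by rw [hok 0 5 6 (by decide) (by decide), hok 1 4 6 (by decide) (by decide)]; rfl)
    (b 7) (b 8) (b 9) (hok 2 8 9 (by decide) (by decide))
    (b 10) (by rw [hok 0 9 10 (by decide) (by decide), hok 1 8 10 (by decide) (by decide)]; rfl)
    (b 11) (by rw [hok 3 7 11 (by decide) (by decide), hok 4 8 11 (by decide) (by decide),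
      hok 5 9 11 (by decide) (by decide), hok 6 10 11 (by decide) (by decide)]; rfl)
    (b 12) (by rw [hok 3 8 12 (by decide) (by decide), hok 4 7 12 (by decide) (by decide)]; rfl)
    (b 13) (by rw [hok 2 12 13 (by decide) (by decide), hok 3 9 13 (by decide) (by decide),
      hok 5 7 13 (by decide) (by decide)]; rfl)
    (b 14) (by rw [hok 0 13 14 (by decide) (by decide), hok 1 12 14 (by decide) (by decide),
      hok 3 10 14 (by decide) (by decide), hok 6 7 14 (by decide) (by decide)]; rfl)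
    (by
      have hh : ∀ (g : Fin 15) (c : Bool), (∀ a : Fin 15, b a = true → B (w a).1 (w g).1 = 1 →
          c = true) → (!b g || c) = true := by
        intro g c hc
        by_cases hg : b g = true
        · obtain ⟨a, ha, h⟩ := hn g hg
          rw [hc a ha h]
          simp
        · simp [hg]
      simp only [Bool.and_eq_true, Bool.or_assoc]
      refine ⟨⟨⟨⟨⟨⟨⟨⟨⟨⟨⟨⟨⟨⟨?_, ?_⟩, ?_⟩, ?_⟩, ?_⟩, ?_⟩, ?_⟩, ?_⟩, ?_⟩, ?_⟩, ?_⟩, ?_⟩, ?_⟩, ?_⟩, ?_⟩
      all_goals
        apply hh
        intro a ha h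
        fin_cases a <;> first
          | exact absurd h (by decide)
          | (simp only [Fin.mk_one, Fin.zero_eta, Fin.isValue, Fin.reduceFinMk] at ha; simp [ha]))
  rw [hcard]
  intro h7
  apply key
  rw [← h7]
  simp only [Fin.sum_univ_succ, Fin.sum_univ_zero]
  simp only [Fin.isValue, Fin.succ_zero_eq_one, Fin.succ_one_eq_two, Fin.reduceSucc]
  ring

end Pool.Agent.U730.TL
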