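import Pool.Agent.U730.TL.F

set_option autoImplicit false

namespace Pool.Agent.U730.TL

open scoped TensorProduct

section perf

/-- `L` is spanned by the brackets -/
def Perf (R L : Type*) [CommRing R] [LieRing L] [LieAlgebra R L] : Prop :=
  ∀ z : L, z ∈ Submodule.span R {z : L | ∃ x y : L, ⁅x, y⁆ = z}

theorem perf_simple (R L : Type*) [CommRing R] [LieRing L] [LieAlgebra R L]
    [LieAlgebra.IsSimple R L] : Perf R L := by
  have h1 : (⁅(⊤ : LieIdeal R L), (⊤ : LieIdeal R L)⁆ : LieIdeal R L) = ⊤ := by
    rcases LieAlgebra.IsSimple.eq_bot_or_eq_top (R := R) (L := L)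
      ⁅(⊤ : LieIdeal R L), (⊤ : LieIdeal R L)⁆ with h | h
    · exfalso
      apply LieAlgebra.IsSimple.non_abelian R (L := L)
      constructor
      intro x y
      have : ⁅x, y⁆ ∈ (⁅(⊤ : LieIdeal R L), (⊤ : LieIdeal R L)⁆ : LieIdeal R L) :=
        LieSubmodule.lie_mem_lie (LieSubmodule.mem_top x) (LieSubmodule.mem_top y)
      rw [h] at this
      exact (LieSubmodule.mem_bot _).1 this
    · exact h
  intro z
  have h2 : z ∈ (⁅(⊤ : LieIdeal R L), (⊤ : LieIdeal R L)⁆ : LieIdeal R L) := by
    rw [h1]
    exact LieSubmodule.mem_top z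
  rw [← LieSubmodule.mem_toSubmodule, LieSubmodule.lieIdeal_oper_eq_linear_span'] at h2
  refine Submodule.span_mono ?_ h2
  rintro _ ⟨x, _, y, _, rfl⟩
  exact ⟨x, y, rfl⟩

theorem perf_tensor (R A L : Type*) [CommRing R] [CommRing A] [Algebra R A] [LieRing L]
    [LieAlgebra R L] (h : Perf R L) : Perf A (A ⊗[R] L) := by
  intro z
  induction z using TensorProduct.induction_on with
  | zero => exact Submodule.zero_mem _
  | add x y hx hy => exact Submodule.add_mem _ hx hy
  | tmul a x =>
    induction h x using Submodule.span_induction with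
    | mem x hx =>
      obtain ⟨y, y', rfl⟩ := hx
      apply Submodule.subset_span
      refine ⟨a ⊗ₜ y, 1 ⊗ₜ y', ?_⟩
      rw [LieAlgebra.ExtendScalars.bracket_tmul, mul_one]
    | zero => rw [TensorProduct.tmul_zero]; exact Submodule.zero_mem _
    | add x y _ _ hx hy => rw [TensorProduct.tmul_add]; exact Submodule.add_mem _ hx hy
    | smul r x _ hx =>
      rw [TensorProduct.tmul_smul, ← algebraMap_smul A r (a ⊗ₜ[R] x)]
      exact Submodule.smul_mem _ _ hx

theorem perf_equiv (R L L' : Type*) [CommRing R] [LieRing L] [LieAlgebra R L] [LieRing L']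
    [LieAlgebra R L'] (e : L ≃ₗ⁅R⁆ L') (h : Perf R L') : Perf R L := by
  intro z
  have h1 : ∀ y ∈ Submodule.span R {z : L' | ∃ x y : L', ⁅x, y⁆ = z},
      e.symm y ∈ Submodule.span R {z : L | ∃ x y : L, ⁅x, y⁆ = z} := by
    intro y hy
    induction hy using Submodule.span_induction with
    | mem x hx =>
      obtain ⟨y, y', rfl⟩ := hx
      apply Submodule.subset_span
      exact ⟨e.symm y, e.symm y', (LieEquiv.map_lie e.symm y y').symm⟩
    | zero => rw [map_zero]; exact Submodule.zero_mem _
    | add x y _ _ hx hy => rw [map_add]; exact Submodule.add_mem _ hx hy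
    | smul r x _ hx => rw [map_smul]; exact Submodule.smul_mem _ _ hx
  have := h1 (e z) (h (e z))
  rwa [LieEquiv.symm_apply_apply] at this

end perf

variable {K : Type*} [Field K] [CharP K 2]

theorem no_seven (S : Set I) (M : LieSubalgebra K (LK K))
    (hM : M.toSubmodule = Submodule.span K (eb '' S)) (hP : Perf K M) :
    Module.finrank K M ≠ 7 := by
  classical
  have hmem : ∀ i : I, (eb i : LK K) ∈ M ↔ i ∈ S := by
    intro i
    rw [← LieSubalgebra.mem_toSubmodule, hM, Module.Basis.mem_span_image, Module.Basis.repr_self]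
    rw [Finsupp.support_single_ne_zero _ one_ne_zero]
    simp
  have hcl : ∀ i ∈ S, ∀ j ∈ S, ∀ k : I, B i.1 j.1 = 1 → i.1 + j.1 = k.1 → k ∈ S := by
    intro i hi j hj k h1 h2
    have h3 := lie_eb_eb (K := K) i j k h2
    rw [h1, map_one, one_smul] at h3
    rw [← hmem, ← h3]
    exact M.lie_mem ((hmem i).2 hi) ((hmem j).2 hj)
  have hnb : ∀ g ∈ S, ∃ a ∈ S, B a.1 g.1 = 1 := by
    intro g hg
    by_contra hc
    push Not at hc
    -- the coordinate `g` vanishes on the brackets
    have h1 : ∀ x ∈ Submodule.span K (eb '' S), ∀ y ∈ Submodule.span K (eb '' S),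
        ⁅(x : LK K), (y : LK K)⁆ g = 0 := by
      intro x hx y hy
      induction hx using Submodule.span_induction with
      | mem x hx =>
        obtain ⟨i, hi, rfl⟩ := hx
        induction hy using Submodule.span_induction with
        | mem y hy =>
          obtain ⟨j, hj, rfl⟩ := hy
          by_cases hij : i.1 + j.1 = 0
          · have : i = j := Subtype.ext (add_left_cancel
              (a := j.1) (by rw [add_comm, hij, V_add_self]))
            rw [this, lie_self]
            rfl
          · rw [lie_eb_eb i j ⟨i.1 + j.1, hij⟩ rfl]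
            show ph K (B i.1 j.1) * (eb ⟨i.1 + j.1, hij⟩ : LK K) g = 0
            rw [eb_apply]
            split_ifs with hg'
            · have h2 : B i.1 g.1 = B i.1 j.1 := by
                rw [← hg', B_add_self]
              have h3 := hc i hi
              rw [h2] at h3
              rw [(z2 _).resolve_right h3, map_zero, zero_mul]
            · rw [mul_zero]
        | zero => rw [lie_zero]; rfl
        | add x y _ _ hx hy =>
          rw [lie_add]
          show ⁅(eb i : LK K), x⁆ g + ⁅(eb i : LK K), y⁆ g = 0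
          rw [hx, hy, add_zero]
        | smul r x _ hx =>
          rw [lie_smul]
          show r * ⁅(eb i : LK K), x⁆ g = 0
          rw [hx, mul_zero]
      | zero => rw [zero_lie]; rfl
      | add x x' _ _ hx hx' =>
        rw [add_lie]
        show ⁅x, y⁆ g + ⁅x', y⁆ g = 0
        rw [hx, hx', add_zero]
      | smul r x _ hx =>
        rw [smul_lie]
        show r * ⁅x, y⁆ g = 0
        rw [hx, mul_zero]
    have h2 : ∀ z ∈ Submodule.span K {z : M | ∃ x y : M, ⁅x, y⁆ = z}, (z : LK K) g = 0 := by
      intro z hz
      induction hz using Submodule.span_induction with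
      | mem x hx =>
        obtain ⟨y, y', rfl⟩ := hx
        rw [LieSubalgebra.coe_bracket]
        exact h1 _ (by rw [← hM]; exact y.2) _ (by rw [← hM]; exact y'.2)
      | zero => rfl
      | add x y _ _ hx hy =>
        show (x : LK K) g + (y : LK K) g = 0
        rw [hx, hy, add_zero]
      | smul r x _ hx =>
        show r * (x : LK K) g = 0
        rw [hx, mul_zero]
    have h3 := h2 _ (hP ⟨eb g, (hmem g).2 hg⟩)
    have h4 : (eb g : LK K) g = 0 := h3
    rw [eb_apply, if_pos rfl] at h4
    exact one_ne_zero h4
  have hfin : Module.finrank K M = S.toFinset.card := by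
    have h1 : Module.finrank K M = Module.finrank K (Submodule.span K ((eb : I → LK K) '' S)) := by
      rw [← hM]
      rfl
    rw [h1, Set.image_eq_range]
    have h2 := finrank_span_eq_card (R := K) (b := fun i : S => (eb i.1 : LK K))
      (eb.linearIndependent.comp _ Subtype.val_injective)
    rw [h2, Set.toFinset_card]
  rw [hfin]
  apply seven
  · intro i hi j hj k h1 h2
    rw [Set.mem_toFinset] at *
    exact hcl i hi j hj k h1 h2
  · intro g hg
    rw [Set.mem_toFinset] at hg
    obtain ⟨a, ha, h⟩ := hnb g hg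
    exact ⟨a, by rwa [Set.mem_toFinset], h⟩

end Pool.Agent.U730.TL
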