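import Pool.Agent.U730.TL.A

set_option autoImplicit false

namespace Pool.Agent.U730.TL

open AddMonoidAlgebra

/-- the nonzero weights -/
abbrev I := {α : Fin 4 → ZMod 2 // α ≠ 0}

/-- the Lie algebra: functions on the nonzero weights -/
def LK (K : Type*) := I → K

variable {K : Type*} [Field K]

noncomputable instance : AddCommGroup (LK K) := inferInstanceAs (AddCommGroup (I → K))
noncomputable instance : Module K (LK K) := inferInstanceAs (Module K (I → K))
instance : Module.Finite K (LK K) := inferInstanceAs (Module.Finite K (I → K))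

/-- the embedding in the group algebra -/
noncomputable def io : LK K →ₗ[K] AddMonoidAlgebra K V where
  toFun x := ofCoeff (Finsupp.equivFunOnFinite.symm (fun α => if h : α ≠ 0 then x ⟨α, h⟩ else 0))
  map_add' x y := by
    ext α
    by_cases h : α ≠ 0
    · simp only [coeff_add, Finsupp.add_apply, Finsupp.equivFunOnFinite_symm_apply_apply]
      rw [dif_pos h, dif_pos h, dif_pos h]
      rfl
    · simp only [coeff_add, Finsupp.add_apply, Finsupp.equivFunOnFinite_symm_apply_apply]
      rw [dif_neg h, dif_neg h, dif_neg h, add_zero]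
  map_smul' a x := by
    ext α
    by_cases h : α ≠ 0
    · simp only [coeff_smul, Finsupp.smul_apply, Finsupp.equivFunOnFinite_symm_apply_apply]
      rw [dif_pos h, dif_pos h]
      rfl
    · simp only [coeff_smul, Finsupp.smul_apply, Finsupp.equivFunOnFinite_symm_apply_apply]
      rw [dif_neg h, dif_neg h, smul_zero]

/-- the restriction -/
noncomputable def pr : AddMonoidAlgebra K V →ₗ[K] LK K where
  toFun f := fun i => f.coeff i.1
  map_add' _ _ := rfl
  map_smul' _ _ := rfl

theorem io_coeff (x : LK K) (i : I) : (io x).coeff i.1 = x i := by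
  simp only [io, LinearMap.coe_mk, AddHom.coe_mk, Finsupp.equivFunOnFinite_symm_apply_apply]
  rw [dif_pos i.2]

theorem io_zero (x : LK K) : (io x).coeff 0 = 0 := by
  simp [io]

theorem pr_io (x : LK K) : pr (io x) = x := by
  funext i
  exact io_coeff x i

theorem io_pr (f : AddMonoidAlgebra K V) (h : f.coeff 0 = 0) : io (pr f) = f := by
  ext α
  by_cases hα : α = 0
  · subst hα
    rw [io_zero, h]
  · exact io_coeff (pr f) ⟨α, hα⟩

theorem io_inj : Function.Injective (io : LK K → AddMonoidAlgebra K V) := fun x y h => by
  rw [← pr_io x, h, pr_io]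

variable [CharP K 2]

noncomputable instance : Bracket (LK K) (LK K) := ⟨fun x y => pr (P (io x) (io y))⟩

theorem io_lie (x y : LK K) : io ⁅x, y⁆ = P (io x) (io y) := io_pr _ (P_zero _ _)

noncomputable instance : LieRing (LK K) where
  add_lie x y z := by
    apply io_inj
    rw [map_add, io_lie, io_lie, io_lie, map_add, P_add_left]
  lie_add x y z := by
    apply io_inj
    rw [map_add, io_lie, io_lie, io_lie, map_add, P_add_right]
  lie_self x := by
    apply io_inj
    rw [io_lie, P_self, map_zero]
  leibniz_lie x y z := by
    apply io_inj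
    rw [map_add, io_lie, io_lie, io_lie, io_lie, io_lie, io_lie, P_jac]

noncomputable instance : LieAlgebra K (LK K) where
  lie_smul a x y := by
    apply io_inj
    rw [map_smul, io_lie, io_lie, map_smul, P_smul_right]

omit [CharP K 2] in
/-- the weight vectors -/
noncomputable def eb : Module.Basis I K (LK K) := Pi.basisFun K I

omit [CharP K 2] in
theorem eb_apply (i j : I) : (eb i : LK K) j = if i = j then 1 else 0 := by
  classical
  show (Pi.basisFun K I i) j = _
  rw [Pi.basisFun_apply, Pi.single_apply]
  simp only [eq_comm]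

omit [CharP K 2] in
theorem eb_repr (x : LK K) (i : I) : eb.repr x i = x i := rfl

omit [CharP K 2] in
theorem io_eb (i : I) : io (eb i : LK K) = single i.1 1 := by
  ext α
  by_cases hα : α = 0
  · subst hα
    rw [io_zero, coeff_single, Finsupp.single_apply, if_neg i.2]
  · have := io_coeff (eb i : LK K) ⟨α, hα⟩
    rw [this, eb_apply, coeff_single, Finsupp.single_apply]
    simp only [Subtype.ext_iff]

/-- coordinates of a bracket with a weight vector -/
theorem lie_eb_eb (i j k : I) (h : i.1 + j.1 = k.1) :
    ⁅(eb i : LK K), (eb j : LK K)⁆ = ph K (B i.1 j.1) • eb k := by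
  apply io_inj
  rw [io_lie, io_eb, io_eb, P_single, map_smul, io_eb, h, smul_single]
  simp

theorem lie_eb_self (i : I) : ⁅(eb i : LK K), (eb i : LK K)⁆ = 0 := lie_self _

end Pool.Agent.U730.TL
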