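import Pool.Agent.U730.TL.L

set_option autoImplicit false

namespace Pool.Agent.U730.TL

open AddMonoidAlgebra

theorem B_self (α : V) : B α α = 0 := by
  simp only [B]
  have : ∀ a b c d : ZMod 2, a * b + b * a + c * d + d * c = 0 := by decide
  exact this _ _ _ _

theorem B_add_right (α β γ : V) : B α (β + γ) = B α β + B α γ := by
  simp only [B, Pi.add_apply]; ring

theorem B_comm (α β : V) : B α β = B β α := by
  simp only [B]; ring

theorem B_add_self (α β : V) : B α (α + β) = B α β := by
  rw [B_add_right, B_self, zero_add]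

theorem z2 (a : ZMod 2) : a = 0 ∨ a = 1 := by
  revert a; decide

theorem nondeg (γ : V) (h : γ ≠ 0) : ∃ α : V, B α γ = 1 := by
  by_contra hc
  push Not at hc
  have h0 : ∀ α, B α γ = 0 := fun α => (z2 _).resolve_right (hc α)
  apply h
  funext i
  have e0 := h0 ![1, 0, 0, 0]
  have e1 := h0 ![0, 1, 0, 0]
  have e2 := h0 ![0, 0, 1, 0]
  have e3 := h0 ![0, 0, 0, 1]
  simp [B] at e0 e1 e2 e3
  fin_cases i <;> simp [*]

theorem ne_zero_of_B {α β : V} (h : B α β = 1) : α ≠ 0 ∧ β ≠ 0 ∧ α + β ≠ 0 := by
  refine ⟨?_, ?_, ?_⟩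
  · rintro rfl
    simp [B] at h
  · rintro rfl
    simp [B] at h
  · intro h'
    have hβ : β = α := add_left_cancel (h'.trans (V_add_self α).symm)
    rw [hβ, B_self] at h
    exact zero_ne_one h

/-- two nonzero vectors have a common neighbour -/
theorem common (α γ : V) (hα : α ≠ 0) (hγ : γ ≠ 0) : ∃ δ : V, B α δ = 1 ∧ B δ γ = 1 := by
  obtain ⟨a, ha⟩ := nondeg α hα
  obtain ⟨b, hb⟩ := nondeg γ hγ
  rcases z2 (B a γ) with h1 | h1
  · rcases z2 (B b α) with h2 | h2
    · refine ⟨a + b, ?_, ?_⟩
      · rw [B_add_right, B_comm α a, ha, B_comm α b, h2, add_zero]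
      · rw [B_comm, B_add_right, B_comm γ a, h1, B_comm γ b, hb, zero_add]
    · exact ⟨b, by rw [B_comm, h2], hb⟩
  · exact ⟨a, by rw [B_comm, ha], h1⟩

variable {K : Type*} [Field K] [CharP K 2]

/-- `(ad e_i)²` is diagonal -/
theorem lie_lie_eb (i : I) (x : LK K) (j : I) :
    ⁅(eb i : LK K), ⁅(eb i : LK K), x⁆⁆ j = ph K (B i.1 j.1) * x j := by
  let T : LK K →ₗ[K] LK K :=
    { toFun := fun x j => ph K (B i.1 j.1) * x j
      map_add' := fun x y => by
        funext j
        exact mul_add _ _ _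
      map_smul' := fun a x => by
        funext j
        show ph K (B i.1 j.1) * (a * x j) = a * (ph K (B i.1 j.1) * x j)
        ring }
  have h : (LieAlgebra.ad K (LK K) (eb i)) * (LieAlgebra.ad K (LK K) (eb i)) = T := by
    apply eb.ext
    intro k
    rw [Module.End.mul_apply, LieAlgebra.ad_apply, LieAlgebra.ad_apply]
    have hT : T (eb k) = ph K (B i.1 k.1) • eb k := by
      funext l
      show ph K (B i.1 l.1) * (eb k : LK K) l = ph K (B i.1 k.1) * (eb k : LK K) l
      rw [eb_apply]
      split_ifs with hkl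
      · rw [hkl]
      · simp
    rw [hT]
    by_cases hik : i = k
    · subst hik
      rw [lie_self, lie_zero, B_self, map_zero, zero_smul]
    · have hne : i.1 + k.1 ≠ 0 := by
        intro h'
        exact hik (Subtype.ext (add_left_cancel (h'.trans (V_add_self i.1).symm)).symm)
      rw [lie_eb_eb i k ⟨i.1 + k.1, hne⟩ rfl, lie_smul,
        lie_eb_eb i ⟨i.1 + k.1, hne⟩ k (by
          show i.1 + (i.1 + k.1) = k.1
          rw [← add_assoc, V_add_self, zero_add])]
      rw [smul_smul, B_add_self, ph_sq]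
  have h2 := congrFun (LinearMap.congr_fun h x) j
  exact h2

theorem mem_all (J : LieIdeal K (LK K)) (j : I) (hj : (eb j : LK K) ∈ J) (k : I) :
    (eb k : LK K) ∈ J := by
  have step : ∀ i k : I, B i.1 k.1 = 1 → (eb i : LK K) ∈ J → (eb k : LK K) ∈ J := by
    intro i k hik hi
    have hne : i.1 + k.1 ≠ 0 := (ne_zero_of_B hik).2.2
    have h1 := lie_eb_eb (K := K) ⟨i.1 + k.1, hne⟩ i k (by
      show i.1 + k.1 + i.1 = k.1
      rw [add_comm i.1 k.1, add_assoc, V_add_self, add_zero])
    have h2 : B (i.1 + k.1) i.1 = 1 := by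
      rw [B_comm, B_add_self, hik]
    rw [h2, map_one, one_smul] at h1
    rw [← h1]
    exact lie_mem_right K (LK K) J _ _ hi
  obtain ⟨δ, h1, h2⟩ := common j.1 k.1 j.2 k.2
  exact step ⟨δ, (ne_zero_of_B h1).2.1⟩ k h2 (step j ⟨δ, (ne_zero_of_B h1).2.1⟩ h1 hj)

open Classical in
theorem exists_eb (J : LieIdeal K (LK K)) : ∀ (n : ℕ) (x : LK K), x ∈ J → x ≠ 0 →
    (Finset.univ.filter (fun j : I => x j ≠ 0)).card ≤ n → ∃ j : I, (eb j : LK K) ∈ J := by
  intro n
  induction n with
  | zero =>
    intro x _ hx0 hn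
    exfalso
    apply hx0
    funext j
    by_contra hj
    have hj' : x j ≠ 0 := hj
    have : j ∈ Finset.univ.filter (fun j : I => x j ≠ 0) := by simp [hj']
    have := Finset.card_pos.2 ⟨j, this⟩
    omega
  | succ n ih =>
    intro x hx hx0 hn
    obtain ⟨j, hj⟩ : ∃ j, x j ≠ 0 := by
      by_contra hc
      push Not at hc
      exact hx0 (funext hc)
    by_cases h : ∃ j', j' ≠ j ∧ x j' ≠ 0
    · obtain ⟨j', hj', hxj'⟩ := h
      have hne : j.1 + j'.1 ≠ 0 := by
        intro h'
        exact hj' (Subtype.ext (add_left_cancel (h'.trans (V_add_self j.1).symm)))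
      obtain ⟨α, hα⟩ := nondeg _ hne
      have hα0 := (ne_zero_of_B hα).1
      rw [B_add_right] at hα
      have hy : ∀ k, ⁅(eb ⟨α, hα0⟩ : LK K), ⁅(eb ⟨α, hα0⟩ : LK K), x⁆⁆ k = ph K (B α k.1) * x k :=
        fun k => lie_lie_eb ⟨α, hα0⟩ x k
      refine ih ⁅(eb ⟨α, hα0⟩ : LK K), ⁅(eb ⟨α, hα0⟩ : LK K), x⁆⁆
        (lie_mem_right K (LK K) J _ _ (lie_mem_right K (LK K) J _ _ hx)) ?_ ?_
      · intro h0
        rcases z2 (B α j.1) with h1 | h1
        · rw [h1, zero_add] at hα
          have := hy j'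
          rw [h0, hα, map_one, one_mul] at this
          exact hxj' this.symm
        · have := hy j
          rw [h0, h1, map_one, one_mul] at this
          exact hj this.symm
      · have hlt : (Finset.univ.filter (fun k : I =>
            ⁅(eb ⟨α, hα0⟩ : LK K), ⁅(eb ⟨α, hα0⟩ : LK K), x⁆⁆ k ≠ 0)) ⊂
            (Finset.univ.filter (fun j : I => x j ≠ 0)) := by
          rw [Finset.ssubset_iff_of_subset]
          · rcases z2 (B α j.1) with h1 | h1
            · refine ⟨j, by simp [hj], ?_⟩
              simp [hy, h1]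
            · have h2 : B α j'.1 = 0 := by
                rw [h1] at hα
                simpa using hα
              refine ⟨j', by simp [hxj'], ?_⟩
              simp [hy, h2]
          · intro k hk
            simp only [Finset.mem_filter, Finset.mem_univ, true_and, hy] at hk ⊢
            exact right_ne_zero_of_mul hk
        have := Finset.card_lt_card hlt
        omega
    · push Not at h
      refine ⟨j, ?_⟩
      have : x = x j • (eb j : LK K) := by
        funext k
        show x k = x j * (eb j : LK K) k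
        rw [eb_apply]
        split_ifs with hk
        · rw [hk, mul_one]
        · rw [mul_zero]
          exact h k (fun h' => hk h'.symm)
      obtain ⟨c, hc, hxc⟩ : ∃ c : K, c ≠ 0 ∧ x = c • (eb j : LK K) := ⟨x j, hj, this⟩
      have h2 : (eb j : LK K) = c⁻¹ • x := by
        rw [hxc, smul_smul, inv_mul_cancel₀ hc, one_smul]
      rw [h2]
      exact J.smul_mem _ hx

instance simple : LieAlgebra.IsSimple K (LK K) where
  eq_bot_or_eq_top J := by
    by_cases h : J = ⊥
    · exact Or.inl h
    · right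
      obtain ⟨x, hx, hx0⟩ : ∃ x ∈ J, x ≠ 0 := by
        by_contra hc
        push Not at hc
        apply h
        rw [LieSubmodule.eq_bot_iff]
        exact hc
      obtain ⟨j, hj⟩ := exists_eb J _ x hx hx0 le_rfl
      rw [eq_top_iff]
      intro y _
      rw [← eb.sum_repr y]
      exact Submodule.sum_mem J.toSubmodule
        (fun i _ => Submodule.smul_mem _ _ (mem_all J j hj i))
  non_abelian := by
    intro hab
    have h1 : B ![1, 0, 0, 0] ![0, 1, 0, 0] = 1 := by decide
    have hne := ne_zero_of_B h1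
    have := lie_eb_eb (K := K) ⟨_, hne.1⟩ ⟨_, hne.2.1⟩ ⟨_, hne.2.2⟩ rfl
    rw [hab.trivial] at this
    rw [h1, map_one, one_smul] at this
    exact eb.ne_zero _ this.symm

end Pool.Agent.U730.TL
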