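import Pool.Agent.U730.TL.S

set_option autoImplicit false

namespace Pool.Agent.U730.TL

open AddMonoidAlgebra

variable {K : Type*} [Field K] [CharP K 2]

theorem two0A : (2 : AddMonoidAlgebra K V) = 0 := by
  have : (2 : AddMonoidAlgebra K V) = algebraMap K _ (2 : K) := (map_ofNat _ 2).symm
  rw [this, two0, map_zero]

/-- The endomorphisms of `L` which are induced by derivations of the group algebra. -/
def G (K : Type*) [Field K] [CharP K 2] : Submodule K (Module.End K (LK K)) where
  carrier := {f | ∃ g : Fin 4 → AddMonoidAlgebra K V, ∀ x, io (f x) = ∑ j, g j * D j (io x)}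
  add_mem' := by
    rintro f f' ⟨g, hg⟩ ⟨g', hg'⟩
    refine ⟨fun j => g j + g' j, fun x => ?_⟩
    rw [LinearMap.add_apply, map_add, hg, hg', ← Finset.sum_add_distrib]
    simp only [add_mul]
  zero_mem' := ⟨fun _ => 0, fun x => by simp⟩
  smul_mem' := by
    rintro a f ⟨g, hg⟩
    refine ⟨fun j => a • g j, fun x => ?_⟩
    rw [LinearMap.smul_apply, map_smul, hg, Finset.smul_sum]
    simp only [smul_mul_assoc]

theorem ad_mem_G (x : LK K) : LieAlgebra.ad K (LK K) x ∈ G K := by
  refine ⟨![- D 1 (io x), D 0 (io x), - D 3 (io x), D 2 (io x)], fun y => ?_⟩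
  rw [LieAlgebra.ad_apply, io_lie, P, Fin.sum_univ_four]
  simp only [Matrix.cons_val_zero, Matrix.cons_val_one, Matrix.cons_val]
  ring

theorem sq_mem_G (f : Module.End K (LK K)) (hf : f ∈ G K) : f * f ∈ G K := by
  obtain ⟨g, hg⟩ := hf
  refine ⟨fun k => ∑ j, g j * D j (g k) + g k * g k, fun x => ?_⟩
  rw [Module.End.mul_apply, hg, hg]
  simp only [Fin.sum_univ_four, map_add, D_mul, D_sq]
  rw [D_comm 1 0 (io x), D_comm 2 0 (io x), D_comm 3 0 (io x), D_comm 2 1 (io x),
    D_comm 3 1 (io x), D_comm 3 2 (io x)]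
  linear_combination (g 0 * g 1 * D 0 (D 1 (io x)) + g 0 * g 2 * D 0 (D 2 (io x))
    + g 0 * g 3 * D 0 (D 3 (io x)) + g 1 * g 2 * D 1 (D 2 (io x))
    + g 1 * g 3 * D 1 (D 3 (io x)) + g 2 * g 3 * D 2 (D 3 (io x))) * two0A (K := K)

/-- the augmentation -/
noncomputable def ep : AddMonoidAlgebra K V →ₐ[K] K :=
  AddMonoidAlgebra.lift K K V 1

omit [CharP K 2] in
theorem ep_single (α : V) (a : K) : ep (single α a : AddMonoidAlgebra K V) = a := by
  simp [ep]

theorem sq_eq (a : AddMonoidAlgebra K V) : a * a = (ep a * ep a) • 1 := by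
  induction a using AddMonoidAlgebra.induction_linear with
  | zero => simp
  | add f g hf hg =>
    have h1 : (f + g) * (f + g) = f * f + g * g + 2 * (f * g) := by ring
    have h2 : (ep (f + g)) * (ep (f + g)) = ep f * ep f + ep g * ep g + 2 * (ep f * ep g) := by
      rw [map_add]; ring
    rw [h1, h2, two0A, two0, hf, hg, zero_mul, zero_mul, add_zero, add_zero, add_smul]
  | single α a =>
    rw [single_mul_single, V_add_self, ep_single, one_def, smul_single]
    simp

theorem isUnit_of_ep (a : AddMonoidAlgebra K V) (h : ep a ≠ 0) : IsUnit a := by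
  have h1 := sq_eq a
  refine IsUnit.of_mul_eq_one ((ep a * ep a)⁻¹ • a) ?_
  rw [mul_smul_comm, h1, smul_smul, inv_mul_cancel₀ (mul_ne_zero h h), one_smul]

/-- the differential at the augmentation -/
noncomputable def de : LK K →ₗ[K] (Fin 4 → K) where
  toFun x := fun j => ep (D j (io x))
  map_add' x y := by
    funext j
    simp only [map_add, Pi.add_apply]
  map_smul' a x := by
    funext j
    simp only [map_smul, Pi.smul_apply, RingHom.id_apply]

theorem de_eb (i : I) (j : Fin 4) : de (eb i : LK K) j = ph K (i.1 j) := by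
  show ep (D j (io (eb i : LK K))) = _
  rw [io_eb, D_single, ep_single, mul_one]

theorem de_surj : LinearMap.range (de : LK K →ₗ[K] (Fin 4 → K)) = ⊤ := by
  rw [eq_top_iff]
  intro y _
  have hne : ∀ j : Fin 4, (Pi.single j 1 : V) ≠ 0 := by
    intro j h
    have := congrFun h j
    rw [Pi.single_eq_same] at this
    exact one_ne_zero this
  refine ⟨∑ j, y j • eb ⟨Pi.single j 1, hne j⟩, ?_⟩
  rw [map_sum]
  funext k
  rw [Finset.sum_apply]
  have : ∀ j, (de (y j • (eb ⟨Pi.single j 1, hne j⟩ : LK K))) k = if j = k then y j else 0 := by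
    intro j
    rw [map_smul, Pi.smul_apply, de_eb]
    show y j • ph K ((Pi.single j 1 : V) k) = _
    split_ifs with h
    · subst h
      rw [Pi.single_eq_same, map_one, smul_eq_mul, mul_one]
    · rw [Pi.single_eq_of_ne (fun h' => h h'.symm), map_zero, smul_zero]
  rw [Finset.sum_congr rfl (fun j _ => this j)]
  simp

/-- an element of `G` which kills four elements with independent differentials is zero -/
theorem G_zero (f : Module.End K (LK K)) (hf : f ∈ G K) (v : Fin 4 → LK K)
    (hv : LinearIndependent K (fun i => de (v i))) (h0 : ∀ i, f (v i) = 0) : f = 0 := by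
  obtain ⟨g, hg⟩ := hf
  let M : Matrix (Fin 4) (Fin 4) (AddMonoidAlgebra K V) := fun i j => D j (io (v i))
  have hM : M.mulVec g = 0 := by
    funext i
    have := hg (v i)
    rw [h0, map_zero] at this
    rw [Matrix.mulVec, dotProduct, Pi.zero_apply, this]
    exact Finset.sum_congr rfl (fun j _ => mul_comm _ _)
  have hdet : IsUnit M.det := by
    apply isUnit_of_ep
    have h1 : ep M.det = (M.map ep).det := by
      have := (ep : AddMonoidAlgebra K V →ₐ[K] K).toRingHom.map_det M
      exact this
    rw [h1]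
    have h2 : M.map ep = Matrix.of (fun i => de (v i)) := rfl
    rw [h2]
    have h3 : IsUnit (Matrix.of (fun i => de (v i)) : Matrix (Fin 4) (Fin 4) K) := by
      rw [← Matrix.linearIndependent_rows_iff_isUnit]
      exact hv
    exact ((Matrix.isUnit_iff_isUnit_det _).1 h3).ne_zero
  have hg0 : g = 0 := by
    have h1 : (M.adjugate * M).mulVec g = 0 := by
      rw [← Matrix.mulVec_mulVec, hM, Matrix.mulVec_zero]
    rw [Matrix.adjugate_mul, Matrix.smul_mulVec, Matrix.one_mulVec] at h1
    funext j
    have := congrFun h1 j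
    rw [Pi.smul_apply, smul_eq_mul, Pi.zero_apply] at this
    exact (hdet.mul_right_eq_zero).1 this
  ext x : 1
  apply io_inj
  rw [hg, hg0]
  simp

end Pool.Agent.U730.TL
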